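import Mathlib
import Pool.Agent.N119.PS.Stm3
import Pool.Agent.N720.PSC.RAY

set_option autoImplicit false

/-!
# Independence of the approach (leaf APP of project PSC3, helper717 for helper119)
-/

namespace Pool.Agent.N717.PSC3

open Pool.Agent.H472R3 Pool.Agent.H67R3.FSR Pool.Agent.H67R4.SR Pool.Agent.N119.PS
open Pool.Agent.N720.PSC (ray_G ray_large G_le_left)
open MeasureTheory Topology Filter

variable {N : ℕ}

theorem gpT_iso {T : Type} [MetricSpace T] (hT : IsRTree T) {x u w v : T}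
    (h : gpT x u w < gpT x w v) : gpT x u v = gpT x u w := by
  apply le_antisymm
  · by_contra hc
    have h2 := gpT_um hT x u v w
    rw [gpT_comm x v w] at h2
    rcases min_le_iff.mp h2 with h3 | h3
    · exact hc h3
    · linarith
  · have h2 := gpT_um hT x u w v
    rw [min_eq_left h.le] at h2
    exact h2

theorem gpT_le {T : Type} [MetricSpace T] (x u v : T) : gpT x u v ≤ dist x u := by
  unfold gpT
  have := dist_triangle x u v
  linarith

/-- the Gromov products along a ray tend to infinity -/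
theorem big (h1 : S_BCL) (A : FTree N) (hA : A.InCV) (ξ : Bd N) (z p p' : A.T) (R : ℝ) :
    ∃ n0 : ℕ, ∀ n m, n0 ≤ n → n0 ≤ m → R < gpT z (ray ξ n • p) (ray ξ m • p') := by
  obtain ⟨C, hC⟩ := h1 N A hA z
  obtain ⟨n0, hn0⟩ := ray_large A hA z ξ (R + C + |R| + dist z p + dist z p')
  have hdp := dist_nonneg (x := z) (y := p)
  have hdp' := dist_nonneg (x := z) (y := p')
  have hC0 := hC.1
  have hR := le_abs_self R
  have hR0 := abs_nonneg R
  -- base point
  have hb : ∀ n m, n0 ≤ n → n ≤ m → R < gpT z (ray ξ n • z) (ray ξ m • z) := by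
    intro n m hn hm
    obtain ⟨j, rfl⟩ := Nat.exists_eq_add_of_le hm
    have h2 := ray_G A z C hC ξ n j
    rw [G_lenFn] at h2
    have h3 := hn0 n hn
    linarith
  have hb' : ∀ n m, n0 ≤ n → n0 ≤ m → R < gpT z (ray ξ n • z) (ray ξ m • z) := by
    intro n m hn hm
    rcases le_total n m with h | h
    · exact hb n m hn h
    · rw [gpT_comm]
      exact hb m n hm h
  -- change of the point
  have hc : ∀ (q : A.T) (n : ℕ), (lenFn A z).L (ray ξ n) - dist z q ≤
      gpT z (ray ξ n • z) (ray ξ n • q) := by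
    intro q n
    rw [lenFn_L]
    unfold gpT
    rw [A.isometric]
    have h2 := dist_triangle z (ray ξ n • q) (ray ξ n • z)
    rw [A.isometric, dist_comm q z] at h2
    linarith
  refine ⟨n0, fun n m hn hm => ?_⟩
  have e1 : R < gpT z (ray ξ n • p) (ray ξ n • z) := by
    rw [gpT_comm]
    have := hc p n
    have := hn0 n hn
    linarith
  have e2 : R < gpT z (ray ξ m • z) (ray ξ m • p') := by
    have := hc p' m
    have := hn0 m hm
    linarith
  have e3 := hb' n m hn hm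
  have e4 := gpT_um A.isRTree z (ray ξ n • p) (ray ξ n • z) (ray ξ m • z)
  have e5 := gpT_um A.isRTree z (ray ξ n • p) (ray ξ m • z) (ray ξ m • p')
  exact lt_of_lt_of_le (lt_min (lt_of_lt_of_le (lt_min e1 e3) e4) e2) e5

theorem sep {ξ ζ : Bd N} (hne : ξ ≠ ζ) : ∃ k, ray ξ k = ray ζ k ∧ ξ.1 (ray ξ k) ≠ ζ.1 (ray ξ k) := by
  by_contra hc
  push Not at hc
  apply hne
  have h1 : ∀ k, ray ξ k = ray ζ k := by
    intro k
    induction k with
    | zero => rfl
    | succ k ih =>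
      rw [ray, ray, ← ih, hc k ih]
  have h2 : ray ξ = ray ζ := funext h1
  have h3 := ray_conv ξ
  rw [h2] at h3
  exact h3.unique (ray_conv ζ)

/-- the word after a common prefix -/
theorem after (ξ : Bd N) (k i : ℕ) : ∃ t, ((ray ξ k)⁻¹ * ray ξ (k + 1 + i)).toWord =
    ξ.1 (ray ξ k) :: t := by
  obtain ⟨t, ht⟩ := ray_pfx ξ (k + 1) i
  rw [ray_word, List.append_assoc] at ht
  refine ⟨t, ?_⟩
  have hr : FreeGroup.IsReduced ([ξ.1 (ray ξ k)] ++ t) := by
    have h2 : FreeGroup.IsReduced ((ray ξ k).toWord ++ ([ξ.1 (ray ξ k)] ++ t)) := by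
      rw [← ht]
      exact FreeGroup.isReduced_toWord
    exact (List.isChain_append.mp h2).2.1
  have e : (ray ξ k)⁻¹ * ray ξ (k + 1 + i) = FreeGroup.mk ([ξ.1 (ray ξ k)] ++ t) := by
    rw [← FreeGroup.mk_toWord (x := ray ξ (k + 1 + i)), ht, ← FreeGroup.mul_mk, FreeGroup.mk_toWord,
      inv_mul_cancel_left]
  rw [e, FreeGroup.toWord_mk, hr.reduce_eq]
  rfl

theorem bounded (A : FTree N) (y : A.T) (C : ℝ) (hC : IsBCC A y C) {ξ ζ : Bd N} (hne : ξ ≠ ζ) :
    ∃ (R : ℝ) (k : ℕ), ∀ n m, k ≤ n → k ≤ m → gpT y (ray ξ n • y) (ray ζ m • y) ≤ R := by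
  obtain ⟨k, h1, h2⟩ := sep hne
  refine ⟨(lenFn A y).L (ray ξ k) + C, k + 1, fun n m hn hm => ?_⟩
  obtain ⟨i, rfl⟩ := Nat.exists_eq_add_of_le hn
  obtain ⟨j, rfl⟩ := Nat.exists_eq_add_of_le hm
  obtain ⟨s, hs⟩ := after ξ k i
  obtain ⟨t, ht⟩ := after ζ k j
  rw [← h1] at ht
  obtain ⟨g, hg⟩ : ∃ g, g = ray ξ k := ⟨_, rfl⟩
  obtain ⟨u, hu⟩ : ∃ u, u = (ray ξ k)⁻¹ * ray ξ (k + 1 + i) := ⟨_, rfl⟩
  obtain ⟨v, hv⟩ : ∃ v, v = (ray ξ k)⁻¹ * ray ζ (k + 1 + j) := ⟨_, rfl⟩
  have eu : ray ξ (k + 1 + i) = g * u := by rw [hu, hg, mul_inv_cancel_left]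
  have ev : ray ζ (k + 1 + j) = g * v := by rw [hv, hg, mul_inv_cancel_left]
  rw [← hu] at hs
  rw [← hv] at ht
  rw [← hg] at hs ht h2 ⊢
  have hr : FreeGroup.IsReduced (u⁻¹.toWord ++ v.toWord) := by
    unfold FreeGroup.IsReduced
    rw [List.isChain_append]
    refine ⟨FreeGroup.isReduced_toWord, FreeGroup.isReduced_toWord, ?_⟩
    intro y hy z hz
    rw [FreeGroup.toWord_inv, hs, FreeGroup.invRev_cons] at hy
    have hy' : y = inv' (ξ.1 g) := by
      rw [List.getLast?_append] at hy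
      simp [FreeGroup.invRev] at hy
      rw [← hy]
      rfl
    rw [ht] at hz
    simp only [List.head?_cons, Option.mem_def, Option.some.injEq] at hz
    rw [reduced_iff, hy', inv'_inv', ← hz]
    exact h2.symm
  have h3 := hC.2 _ _ hr
  rw [(lenFn A y).inv] at h3
  have h4 := tri (lenFn A y) g u
  have h5 := tri (lenFn A y) g v
  rw [← G_lenFn, eu, ev]
  unfold G
  have e : (g * u)⁻¹ * (g * v) = u⁻¹ * v := by group
  rw [e]
  linarith

theorem lim_eq {f : ℕ → ℝ} {c : ℝ} {n0 : ℕ} (h : ∀ n, n0 ≤ n → f n = c) : limUnder atTop f = c := by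
  apply Tendsto.limUnder_eq
  apply Tendsto.congr' (f₁ := fun _ => c)
  · filter_upwards [eventually_ge_atTop n0] with n hn
    exact (h n hn).symm
  · exact tendsto_const_nhds

theorem t0 (h1 : S_BCL) : S_APP := by
  intro N A hA
  refine ⟨fun ξ p y z => ?_, fun q p p' y => ?_⟩
  · -- Busemann functions
    have key : ∀ p p' : A.T, ∃ n0 : ℕ, ∀ n m, n0 ≤ n → n0 ≤ m →
        gpT z y (ray ξ m • p') = gpT z y (ray ξ n • p) := by
      intro p p'
      obtain ⟨n0, hn0⟩ := big h1 A hA ξ z p p' (dist z y)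
      exact ⟨n0, fun n m hn hm => gpT_iso A.isRTree (lt_of_le_of_lt (gpT_le z y _) (hn0 n m hn hm))⟩
    have ex : ∀ w : A.T, dist y w - dist z w = dist z y - 2 * gpT z y w := by
      intro w
      unfold gpT
      ring
    obtain ⟨n1, h1'⟩ := key p z
    obtain ⟨n2, h2'⟩ := key z z
    have hl : buse A ξ y z = dist y (ray ξ (max n1 n2) • z) - dist z (ray ξ (max n1 n2) • z) := by
      unfold buse
      apply lim_eq (n0 := n2)
      intro n hn
      rw [ex, ex, h2' (max n1 n2) n (le_max_right _ _) hn]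
    refine ⟨n1, fun n hn => ?_⟩
    rw [hl, ex, ex, h1' n (max n1 n2) hn (le_max_left _ _)]
  · -- Gromov products
    obtain ⟨C, hC⟩ := h1 N A hA y
    have hne : q.1.1 ≠ q.1.2 := q.2
    obtain ⟨R, k, hR⟩ := bounded A y C hC hne
    have key : ∀ p p' : A.T, ∃ n0 : ℕ, ∀ n m n' m', n0 ≤ n → n0 ≤ m → n0 ≤ n' → n0 ≤ m' →
        gpT y (ray q.1.1 n' • p) (ray q.1.2 m' • p') = gpT y (ray q.1.1 n • y) (ray q.1.2 m • y) := by
      intro p p'
      obtain ⟨n1, b1⟩ := big h1 A hA q.1.1 y y p R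
      obtain ⟨n2, b2⟩ := big h1 A hA q.1.2 y y p' R
      refine ⟨max k (max n1 n2), fun n m n' m' hn hm hn' hm' => ?_⟩
      have k1 : k ≤ n := le_trans (le_max_left _ _) hn
      have k2 : k ≤ m := le_trans (le_max_left _ _) hm
      have k3 : n1 ≤ n := le_trans (le_trans (le_max_left _ _) (le_max_right _ _)) hn
      have k4 : n1 ≤ n' := le_trans (le_trans (le_max_left _ _) (le_max_right _ _)) hn'
      have k5 : n2 ≤ m := le_trans (le_trans (le_max_right _ _) (le_max_right _ _)) hm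
      have k6 : n2 ≤ m' := le_trans (le_trans (le_max_right _ _) (le_max_right _ _)) hm'
      have a0 := hR n m k1 k2
      have a1 := b1 n n' k3 k4
      have a2 := b2 m m' k5 k6
      have c1 : gpT y (ray q.1.2 m • y) (ray q.1.1 n' • p) = gpT y (ray q.1.2 m • y) (ray q.1.1 n • y) :=
        gpT_iso A.isRTree (by rw [gpT_comm]; exact lt_of_le_of_lt a0 a1)
      have c2 : gpT y (ray q.1.1 n' • p) (ray q.1.2 m' • p') = gpT y (ray q.1.1 n' • p) (ray q.1.2 m • y) :=
        gpT_iso A.isRTree (by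
          rw [gpT_comm, c1, gpT_comm]
          exact lt_of_le_of_lt a0 a2)
      rw [c2, gpT_comm, c1, gpT_comm]
    obtain ⟨n1, h1'⟩ := key p p'
    obtain ⟨n2, h2'⟩ := key y y
    have hl : gpBd A y q = gpT y (ray q.1.1 (max n1 n2) • y) (ray q.1.2 (max n1 n2) • y) := by
      unfold gpBd
      apply lim_eq (n0 := n2)
      intro n hn
      exact h2' (max n1 n2) (max n1 n2) n n (le_max_right _ _) (le_max_right _ _) hn hn
    refine ⟨n1, fun n m hn hm => ?_⟩
    rw [hl]
    exact h1' (max n1 n2) (max n1 n2) n m (le_max_left _ _) (le_max_left _ _) hn hm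

theorem t (h1 : S_BCL) (_h2 : S_RAY) : S_APP := t0 h1

end Pool.Agent.N717.PSC3
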